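import Pool.Agent.H.MP_013c33_an.Defs
import Pool.Agent.H.MP_1eaa31_an.A
import Pool.Agent.Lib.helper23.BLDef2

namespace Pool.Agent.H.MP_013c33_an

open Pool.Agent.Lib.helper23.BL Pool.Agent.H.MP_1eaa31_an Set Filter Topology TopologicalSpace

theorem basic_clopen {B : Type*} [BooleanAlgebra B] (a : B) :
    IsClopen {U : Stone B | a ∈ U.1} := by
  refine ⟨isOpen_compl_iff.1 ?_, isOpen_generateFrom_of_mem ⟨a, rfl⟩⟩
  have : {U : Stone B | a ∈ U.1}ᶜ = {U : Stone B | aᶜ ∈ U.1} := Set.ext fun U =>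
    ⟨fun h => (U.2.2.2.2 a).resolve_left h, fun h k => U.2.1 (by
      simpa using U.2.2.1 _ k _ h)⟩
  rw [this]
  exact isOpen_generateFrom_of_mem ⟨aᶜ, rfl⟩

instance {B : Type*} [BooleanAlgebra B] : TotallySeparatedSpace (Stone B) :=
  totallySeparatedSpace_iff_exists_isClopen.2 fun U V h => by
    by_cases k : U.1 ⊆ V.1
    · obtain ⟨a, a1, a2⟩ := not_subset.1 fun l => h (Subtype.ext (k.antisymm l))
      exact ⟨_, (basic_clopen a).compl, a2, fun l => l a1⟩
    · obtain ⟨a, a1, a2⟩ := not_subset.1 k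
      exact ⟨_, basic_clopen a, a1, a2⟩

variable {K : Type*} [TopologicalSpace K]

/-- the ultrafilter of a point -/
def pt (K : Type*) [TopologicalSpace K] : C(K, Stone (Clopens K)) where
  toFun x := ⟨{a | x ∈ a}, fun h => h, fun _ h _ k => ⟨h, k⟩, fun _ h _ k => k h,
    fun a => em (x ∈ a)⟩
  continuous_toFun := continuous_generateFrom_iff.2 (by
    rintro _ ⟨a, rfl⟩
    exact a.isOpen)

variable [CompactSpace K]

theorem pt_surj : Function.Surjective (pt K) := fun U => by
  have : Nonempty U.1 := ⟨⟨⊤, (U.2.2.2.2 ⊥).resolve_left U.2.1 |> fun h => by simpa using h⟩⟩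
  obtain ⟨x, hx⟩ := IsCompact.nonempty_iInter_of_directed_nonempty_isCompact_isClosed
    (fun a : U.1 => (a.1 : Set K)) (fun a b => ⟨⟨_, U.2.2.1 _ a.2 _ b.2⟩, inter_subset_left,
      inter_subset_right⟩) (fun a => nonempty_iff_ne_empty.2 fun h => U.2.1 (by
        have : a.1 = ⊥ := SetLike.coe_injective h
        exact this ▸ a.2)) (fun a => a.1.isClosed.isCompact) fun a => a.1.isClosed
  refine ⟨x, Subtype.ext (Set.ext fun a => ⟨fun h => ?_, fun h => mem_iInter.1 hx ⟨a, h⟩⟩)⟩
  exact (U.2.2.2.2 a).resolve_right fun k => mem_iInter.1 hx ⟨_, k⟩ h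

instance : CompactSpace (Stone (Clopens K)) :=
  ⟨(pt_surj (K := K)).range_eq ▸ isCompact_range (pt K).continuous⟩

theorem sep (h : C(Stone (Clopens K), ℝ)) {r r' : ℝ} (hr : r < r') :
    ∃ C : Set K, IsClopen C ∧ ∀ x, (x ∉ C → r < h (pt K x)) ∧ (x ∈ C → h (pt K x) < r') := by
  obtain ⟨C, c1, c2, c3⟩ := exists_clopen_of_closed_subset_open
    (isClosed_le h.continuous continuous_const) (isOpen_lt h.continuous continuous_const)
    (fun z (hz : h z ≤ r) => hz.trans_lt hr)
  exact ⟨_, c1.preimage (pt K).continuous, fun x => ⟨fun k => not_le.1 fun l => k (c2 l),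
    fun k => c3 k⟩⟩

/-- indicator functions -/
noncomputable def ind {s : Set K} (h : IsClopen s) : C(K, ℝ) :=
  ⟨s.indicator fun _ => 1, h.continuous_indicator continuous_const⟩

variable {E : Type} [BanachLattice E] {T : C(K, ℝ) →ₗ[ℝ] E}

theorem key (hs : ∀ f g, T (f ⊔ g) = T f ⊔ T g) (hs' : ∀ f g, T (f ⊓ g) = T f ⊓ T g)
    (hi : Function.Injective T) (hd : ∀ y, |y| ≤ T 1 → ∃ f, T f = y) (f : C(K, ℝ))
    (hf : ∀ ε > 0, ∃ h : C(Stone (Clopens K), ℝ), ‖T f - T (h.comp (pt K))‖ < ε) {r r' : ℝ}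
    (hr : r < r') : ∃ C : Set K, IsClopen C ∧ ∀ x, (f x < r → x ∈ C) ∧ (x ∈ C → f x ≤ r') := by
  classical
  obtain ⟨e, he⟩ : ∃ e, e = (r' - r) / 2 := ⟨_, rfl⟩
  have e0 : 0 < e := by linarith
  choose h hh using fun m : ℕ => hf (e / 2 ^ (m + 2) * (1 / 2) ^ m / 4) (by positivity)
  choose D d1 d2 using fun m : ℕ => sep |h m - h (m + 1)|
    (half_lt_self (show 0 < e / 2 ^ (m + 2) by positivity))
  choose G g1 g2 using fun m : ℕ => sep (h m) (show r + e / 2 < r' - e / 2 by linarith)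
  let C : ℕ → Set K := fun m => m.rec (G 0) fun k s => (s ∩ D k) ∪ (G (k + 1) ∩ (D k)ᶜ)
  have c0 : ∀ m, C (m + 1) = (C m ∩ D m) ∪ (G (m + 1) ∩ (D m)ᶜ) := fun _ => rfl
  have c1 : ∀ m, IsClopen (C m) := fun m => by
    induction m with
    | zero => exact g1 0
    | succ m ih => exact (ih.inter (d1 m)).union ((g1 _).inter (d1 m).compl)
  have c2 : ∀ m x, (x ∈ C m → h m (pt K x) ≤ r' - e / 2 ^ (m + 1)) ∧
      (x ∉ C m → r + e / 2 ^ (m + 1) ≤ h m (pt K x)) := fun m x => by
    induction m with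
    | zero => exact ⟨fun k => by simpa using ((g2 0 x).2 k).le,
        fun k => by simpa using ((g2 0 x).1 k).le⟩
    | succ m ih =>
      have a1 : e / 2 ^ (m + 1) = 2 * (e / 2 ^ (m + 2)) := by field_simp; ring
      have a2 : e / 2 ^ (m + 2) ≤ e / 2 := div_le_div_of_nonneg_left e0.le two_pos
        (le_self_pow₀ one_le_two (by omega))
      rw [c0]
      by_cases k : x ∈ D m
      · have a3 : |h m (pt K x) - h (m + 1) (pt K x)| < _ := (d2 m x).2 k
        rw [abs_lt] at a3
        refine ⟨fun l => ?_, fun l => ?_⟩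
        · have := ih.1 (by simpa [k] using l); linarith [a3.1]
        · have := ih.2 (by simpa [k] using l); linarith [a3.2]
      · refine ⟨fun l => ?_, fun l => ?_⟩
        · have := (g2 (m + 1) x).2 (by simpa [k] using l); linarith
        · have := (g2 (m + 1) x).1 (by simpa [k] using l); linarith
  have c3 : ∀ m, dist (T (ind (c1 m))) (T (ind (c1 (m + 1)))) ≤ (1 / 2) ^ m := fun m => by
    have p : 0 < e / 2 ^ (m + 2) := by positivity
    rw [dist_eq_norm, ← map_sub]
    refine (norm_mono hs (g := (2 / (e / 2 ^ (m + 2))) • |(h m).comp (pt K) -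
      (h (m + 1)).comp (pt K)|) fun x => ?_).trans ?_
    · show |(C m).indicator (fun _ => (1 : ℝ)) x - (C (m + 1)).indicator (fun _ => 1) x| ≤
        2 / (e / 2 ^ (m + 2)) * |h m (pt K x) - h (m + 1) (pt K x)|
      by_cases k : x ∈ D m
      · have : x ∈ C (m + 1) ↔ x ∈ C m := by simp [c0, k]
        simp only [indicator, this, sub_self, abs_zero]
        positivity
      · have a3 : _ < |h m (pt K x) - h (m + 1) (pt K x)| := (d2 m x).1 k
        refine le_trans (b := 1) (by simp only [indicator]; split_ifs <;> simp) ?_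
        rw [div_mul_eq_mul_div, le_div_iff₀ p]
        linarith
    · rw [map_smul, norm_smul, map_abs hs, norm_abs_eq_norm, map_sub,
        Real.norm_of_nonneg (by positivity), div_mul_eq_mul_div, div_le_iff₀ p]
      have a1 := norm_sub_le_norm_sub_add_norm_sub (T ((h m).comp (pt K))) (T f)
        (T ((h (m + 1)).comp (pt K)))
      rw [norm_sub_rev _ (T f)] at a1
      have a2 : e / 2 ^ (m + 1 + 2) * (1 / 2) ^ (m + 1) ≤ e / 2 ^ (m + 2) * (1 / 2) ^ m :=
        mul_le_mul (div_le_div_of_nonneg_left e0.le (by positivity)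
          (pow_le_pow_right₀ one_le_two (by omega)))
          (pow_le_pow_of_le_one (by norm_num) (by norm_num) (by omega)) (by positivity) p.le
      linarith [hh m, hh (m + 1)]
  obtain ⟨y, hy⟩ := cauchySeq_tendsto_of_complete
    (cauchySeq_of_dist_le_of_summable _ c3 summable_geometric_two)
  obtain ⟨g, rfl⟩ := hd y (le_of_tendsto' ((continuous_id.sup continuous_neg).tendsto y |>.comp hy)
    fun m => (map_abs hs _).ge.trans (mono hs fun x => by
      show |(C m).indicator (fun _ => (1 : ℝ)) x| ≤ 1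
      simp only [indicator]; split_ifs <;> simp))
  have hl : Tendsto (fun m => T ((h m).comp (pt K))) atTop (𝓝 (T f)) := by
    rw [tendsto_iff_norm_sub_tendsto_zero]
    have := (tendsto_pow_atTop_nhds_zero_of_lt_one (r := (1 / 2 : ℝ)) (by norm_num)
      (by norm_num)).const_mul e
    rw [mul_zero] at this
    refine squeeze_zero (fun _ => norm_nonneg _) (fun m => ?_) this
    rw [norm_sub_rev]
    have a2 : e / 2 ^ (m + 2) ≤ e := div_le_self e0.le (one_le_pow₀ one_le_two)
    have a3 := mul_le_mul_of_nonneg_right a2 (show (0 : ℝ) ≤ (1 / 2) ^ m by positivity)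
    have a4 : 0 ≤ e * (1 / 2) ^ m := by positivity
    linarith [hh m]
  have lim : ∀ (a b : ℕ → C(K, ℝ)) (a' b' : C(K, ℝ)), Tendsto (fun m => T (a m)) atTop (𝓝 (T a')) →
      Tendsto (fun m => T (b m)) atTop (𝓝 (T b')) → (∀ m x, min (a m x) (b m x) ≤ 0) →
      ∀ x, a' x ≤ 0 ∨ b' x ≤ 0 := fun a b a' b' k1 k2 k3 x =>
    min_le_iff.1 (refl hs hi (f := a' ⊓ b') (g := 0) (by
      rw [hs']
      exact le_of_tendsto' (k1.inf_nhds k2) fun m => (hs' _ _).ge.trans (mono hs (k3 m))) x)
  have hy' : Tendsto (fun m => T (1 - ind (c1 m))) atTop (𝓝 (T (1 - g))) := by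
    simp only [map_sub]; exact hy.const_sub _
  have l1 := lim _ _ _ _ hy hy' fun m x => by
    show min ((C m).indicator (fun _ => (1 : ℝ)) x) (1 - (C m).indicator (fun _ => (1 : ℝ)) x) ≤ 0
    simp only [indicator]; split_ifs <;> simp
  have p : ∀ m : ℕ, 0 < e / 2 ^ (m + 1) := fun m => by positivity
  have l2 := lim (fun m => (h m).comp (pt K) - r' • 1) _ (f - r' • 1) _
    (by simp only [map_sub]; exact hl.sub_const _) hy fun m x => by
      show min (h m (pt K x) - r' * 1) ((C m).indicator (fun _ => (1 : ℝ)) x) ≤ 0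
      by_cases k : x ∈ C m
      · exact min_le_of_left_le (by linarith [(c2 m x).1 k, p m])
      · simp [k]
  have l3 := lim (fun m => r • 1 - (h m).comp (pt K)) _ (r • 1 - f) _
    (by simp only [map_sub]; exact hl.const_sub _) hy' fun m x => by
      show min (r * 1 - h m (pt K x)) (1 - (C m).indicator (fun _ => (1 : ℝ)) x) ≤ 0
      by_cases k : x ∈ C m
      · simp [k]
      · exact min_le_of_left_le (by linarith [(c2 m x).2 k, p m])
  simp only [ContinuousMap.sub_apply, ContinuousMap.smul_apply, ContinuousMap.one_apply,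
    smul_eq_mul, mul_one] at l1 l2 l3
  refine ⟨{x | 1 ≤ g x}, ⟨isClosed_le continuous_const g.continuous, ?_⟩, fun x => ⟨fun k => ?_,
    fun k => ?_⟩⟩
  · have : {x | 1 ≤ g x} = {x | 0 < g x} := Set.ext fun x => ⟨fun (k : 1 ≤ g x) => (one_pos.trans_le k : 0 < g x),
      fun k => sub_nonpos.1 ((l1 x).resolve_left (not_le.2 k))⟩
    rw [this]; exact isOpen_lt continuous_const g.continuous
  · exact sub_nonpos.1 ((l3 x).resolve_left (by linarith))
  · exact sub_nonpos.1 ((l2 x).resolve_right (not_le.2 (one_pos.trans_le k)))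

theorem factor (hs : ∀ f g, T (f ⊔ g) = T f ⊔ T g) (hs' : ∀ f g, T (f ⊓ g) = T f ⊓ T g)
    (hi : Function.Injective T) (hd : ∀ y, |y| ≤ T 1 → ∃ f, T f = y) (f : C(K, ℝ))
    (hf : ∀ ε > 0, ∃ h : C(Stone (Clopens K), ℝ), ‖T f - T (h.comp (pt K))‖ < ε) :
    ∃ h : C(Stone (Clopens K), ℝ), h.comp (pt K) = f := by
  have k : ∀ x y, pt K x = pt K y → f y ≤ f x := fun x y h => by
    by_contra hc
    obtain ⟨r', r1, r2⟩ := exists_between (not_le.1 hc)
    obtain ⟨r, r3, r4⟩ := exists_between r1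
    obtain ⟨C, c1, c2⟩ := key hs hs' hi hd f hf r4
    have : (⟨C, c1⟩ : Clopens K) ∈ (pt K x).1 := (c2 x).1 r3
    rw [h] at this
    exact absurd ((c2 y).2 this) (not_le.2 r2)
  have q := IsQuotientMap.of_surjective_continuous (pt_surj (K := K)) (pt K).continuous
  exact ⟨q.lift f fun x y h => le_antisymm (k y x h.symm) (k x y h), q.lift_comp _ _⟩

end Pool.Agent.H.MP_013c33_an
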