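import Pool.Agent.H.MP_1eaa31_an.Defs

namespace Pool.Agent.H.MP_013c33_an

open Pool.Agent.Lib.helper23.BL Pool.Agent.H.MP_1eaa31_an

/-- ultrafilters of a Boolean algebra -/
def IsUltra {B : Type*} [BooleanAlgebra B] (U : Set B) : Prop :=
  ⊥ ∉ U ∧ (∀ a ∈ U, ∀ b ∈ U, a ⊓ b ∈ U) ∧ (∀ a ∈ U, ∀ b, a ≤ b → b ∈ U) ∧ ∀ a, a ∈ U ∨ aᶜ ∈ U

/-- the Stone space of a Boolean algebra -/
def Stone (B : Type*) [BooleanAlgebra B] : Type _ := {U : Set B // IsUltra U}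

/-- the Stone topology -/
instance (B : Type*) [BooleanAlgebra B] : TopologicalSpace (Stone B) :=
  .generateFrom (Set.range fun a : B => {U : Stone B | a ∈ U.1})

/-- `C(K)` is a principal ideal of a separable Banach lattice, the constant one generating it -/
def Sick (K : Type*) [TopologicalSpace K] : Prop :=
  ∃ (E : Type) (_ : BanachLattice E) (u : E) (T : C(K, ℝ) →ₗ[ℝ] E),
    TopologicalSpace.SeparableSpace E ∧ 0 ≤ u ∧ Function.Injective T ∧ Set.range T = PIdeal u ∧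
      (∀ f g, T (f ⊔ g) = T f ⊔ T g) ∧ (∀ f g, T (f ⊓ g) = T f ⊓ T g) ∧ T 1 = u

end Pool.Agent.H.MP_013c33_an
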